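import Mathlib
import Pool.Agent.H15.Psc7

set_option autoImplicit false

open Filter Topology

namespace Pool.Agent.Results.MP_dbf3d5_gt.NoConvSeq

/-- Free ultrafilters on the natural numbers. -/
def IsFree (p : Ultrafilter ℕ) : Prop := ∀ n : ℕ, ({n} : Set ℕ) ∉ p

/-- `a` is a `p`-limit of the sequence `x`. -/
def IsPLimit {X : Type} [TopologicalSpace X] (p : Ultrafilter ℕ) (x : ℕ → X) (a : X) : Prop :=
  ∀ V ∈ 𝓝 a, {n | x n ∈ V} ∈ p

/-- Strongly `p`-pseudocompact. -/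
def StronglyPPseudocompact (p : Ultrafilter ℕ) (X : Type) [TopologicalSpace X] : Prop :=
  ∀ U : ℕ → Set X, (∀ n, IsOpen (U n) ∧ (U n).Nonempty) →
    ∃ x : ℕ → X, (∀ n, x n ∈ U n) ∧ ∃ a, IsPLimit p x a

/-- The space contains a non-trivial convergent sequence. -/
def HasNontrivialConvSeq (X : Type) [TopologicalSpace X] : Prop :=
  ∃ (x : ℕ → X) (a : X), Function.Injective x ∧ Tendsto x atTop (𝓝 a)

theorem result (G : Type) [AddCommGroup G]
    (h : ∃ t : TopologicalSpace G, @IsTopologicalAddGroup G t _ ∧ @T2Space G t ∧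
      ∃ p, IsFree p ∧ @StronglyPPseudocompact p G t) :
    (∃ q, IsFree q) ∧ ∀ q, IsFree q →
      ∃ t : TopologicalSpace G, @IsTopologicalAddGroup G t _ ∧ @T2Space G t ∧
        @StronglyPPseudocompact q G t ∧ ¬ @HasNontrivialConvSeq G t := by
  refine ⟨⟨hyperfilter ℕ, fun n => (Set.finite_singleton n).notMem_hyperfilter⟩, fun q hq => ?_⟩
  obtain ⟨t, h1, h2, p, hp, h3⟩ := h
  obtain ⟨t', k1, k2, k3, k4⟩ := (Pool.Agent.H15.Psc.cl2 hq).pseudo (G := G) ⟨t, h1, h2, fun f hf => by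
    by_contra hc
    push Not at hc
    obtain ⟨x, hx, a, ha⟩ := h3 (fun n => {x | (n : ℝ) < |f x|}) fun n =>
      ⟨isOpen_lt continuous_const hf.abs, hc n⟩
    have h4 := ha {y | |f y| < |f a| + 1} ((isOpen_lt hf.abs continuous_const).mem_nhds (by simp))
    obtain ⟨N, hN⟩ := exists_nat_gt (|f a| + 1)
    obtain ⟨n, -, hn⟩ := Ultrafilter.eq_pure_of_finite_mem ((Set.finite_lt_nat N).subset
      fun n hn => by exact_mod_cast ((hx n).trans hn).trans hN) h4
    exact hp n (by rw [hn]; rfl)⟩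
  refine ⟨t', k1, k2, fun U hU => ?_, fun ⟨x, a, hx, ha⟩ => ?_⟩
  · obtain ⟨x, hx, a, ha⟩ := k3 U hU
    exact ⟨x, hx, a, fun V hV => ha hV⟩
  · obtain ⟨N, hN⟩ := eventually_atTop.1 (k4 x a ha)
    have := hx ((hN N le_rfl).trans (hN (N + 1) (Nat.le_succ N)).symm)
    omega

end Pool.Agent.Results.MP_dbf3d5_gt.NoConvSeq
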